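import Pool.Agent.R658.SIEx

set_option autoImplicit false

/-!
A finitely generated right reversible cancellative monoid whose group of right quotients has
decidable word problem, but in which the monoid has undecidable membership problem.
-/

namespace Pool.Agent.Results.MP_91a774_al.MembershipUndecidable

open Pool.Agent.R658

/-- There are a group `G` and finitely many elements `x₁, …, xₙ` of `G`, generating the submonoid
`P` of `G` (a finitely generated cancellative monoid), such that `P` is right reversible,
`G = P P⁻¹`, the word problem of `G` with respect to `x₁, …, xₙ` is decidable, and the membership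
problem of `P` in `G` is undecidable. -/
theorem result :
    ∃ (G : Type) (_ : Group G) (n : ℕ) (x : Fin n → G),
      (∀ a ∈ Submonoid.closure (Set.range x), ∀ b ∈ Submonoid.closure (Set.range x),
        ∃ p ∈ Submonoid.closure (Set.range x), ∃ q ∈ Submonoid.closure (Set.range x),
          a * p = b * q) ∧
      (∀ g : G, ∃ p ∈ Submonoid.closure (Set.range x), ∃ q ∈ Submonoid.closure (Set.range x),
        g = p * q⁻¹) ∧
      ComputablePred (fun w : List (Fin n × Bool) =>
        FreeGroup.lift x (FreeGroup.mk w) = 1) ∧
      ¬ ComputablePred (fun w : List (Fin n × Bool) =>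
        FreeGroup.lift x (FreeGroup.mk w) ∈ Submonoid.closure (Set.range x)) := by
  obtain ⟨m, J, hJ, r, R0, W, hW, hu, h0, h1, h2⟩ := exists_data
  obtain ⟨n, ⟨e⟩⟩ := Finite.exists_equiv_fin (Gn m J)
  have hP : Submonoid.closure (Set.range fun i : Fin n => kap r (e.symm i)) = PM r := by
    unfold PM
    congr 1
    ext g
    constructor
    · rintro ⟨i, rfl⟩
      exact ⟨e.symm i, rfl⟩
    · rintro ⟨y, rfl⟩
      exact ⟨e y, by simp⟩
  have hl : ∀ w : List (Fin n × Bool),
      FreeGroup.lift (fun i : Fin n => kap r (e.symm i)) (FreeGroup.mk w) =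
        (w.map (le e r)).prod := by
    intro w
    rw [FreeGroup.lift_mk]
    congr 1
    apply List.map_congr_left
    rintro ⟨i, b⟩ _
    cases b <;> rfl
  refine ⟨GG m, inferInstance, n, fun i => kap r (e.symm i), ?_, ?_, ?_, ?_⟩
  · rw [hP]
    exact fun a _ b _ => PM_reversible r a b
  · rw [hP]
    exact PM_quotient r
  · have hf : Computable (fun w : List (Fin n × Bool) => (w, ([] : List (Fin n × Bool)))) :=
      Computable.id.pair (Computable.const [])
    refine ComputablePred.computable_of_manyOneReducible ⟨_, hf, fun w => ?_⟩ (group_wp e r)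
    change FreeGroup.lift (fun i : Fin n => kap r (e.symm i)) (FreeGroup.mk w) = 1 ↔
      (w.map (le e r)).prod = 1
    rw [hl]
  · intro hc
    apply hu
    have htw : Primrec (fun w : List (Fin m × Bool) => tw e w) := tw_primrec e
    have hf : Computable (fun k : ℕ => tw e (W k)) := htw.to_comp.comp hW
    refine ComputablePred.computable_of_manyOneReducible ⟨_, hf, fun k => ?_⟩ hc
    change FreeGroup.mk (W k) ∈ Subgroup.normalClosure R0 ↔
      FreeGroup.lift (fun i : Fin n => kap r (e.symm i)) (FreeGroup.mk (tw e (W k))) ∈
        Submonoid.closure (Set.range fun i : Fin n => kap r (e.symm i))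
    rw [hl, ev_tw, hP]
    exact (mem_PM_zero r h0 h1 h2 _).symm

end Pool.Agent.Results.MP_91a774_al.MembershipUndecidable
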